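import Mathlib
import Pool.Agent.TP975.LR.Lk2

/-!
The number of words of each length in the sequence `λ(f(n))`, for almost all polynomials `f`.
-/

set_option autoImplicit false

namespace Pool.Agent.Results.MP_4fffd4_nt.WordsAlongPolynomials

open Finset

/-- the Liouville function on the integers, `lam (-m) = lam m`, `lam 0 = 0` -/
noncomputable def lam (m : ℤ) : ℝ := if m = 0 then 0 else (-1) ^ ArithmeticFunction.cardFactors m.natAbs

/-- the value at `t` of the polynomial with the coefficients `a 0, ..., a d` -/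
def value {d : ℕ} (a : Fin (d + 1) → ℤ) (t : ℤ) : ℤ := ∑ c, a c * t ^ (c : ℕ)

/-- the polynomials of degree at most `d` with coefficients in `[-H, H]` -/
noncomputable def box (d H : ℕ) : Finset (Fin (d + 1) → ℤ) := Fintype.piFinset fun _ => Icc (-(H : ℤ)) H

/-- the word `lam (f (n + 1)), ..., lam (f (n + l))` -/
noncomputable def word {d : ℕ} (f : Fin (d + 1) → ℤ) (l n : ℕ) : Fin l → ℝ :=
  fun j => lam (value f ((n : ℤ) + 1 + (j : ℕ)))

open Classical in
/-- the number of different words of length `l` starting after a place `n < X` -/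
noncomputable def complexity {d : ℕ} (f : Fin (d + 1) → ℤ) (l X : ℕ) : ℕ := ((range X).image (word f l)).card

open Classical in
/-- Let `1 ≤ r ≤ d / 2`. For almost all polynomials `f` of degree at most `d`, for ALL lengths `l ≥ 1` and ALL
`X ≤ log ^ A H`, the sequence `lam (f 1), lam (f 2), ...` has at least `min X (l ^ r) / log ^ ε H` different words of length `l`
that start after a place `n < X`. -/
theorem result (d A r : ℕ) (hr1 : 1 ≤ r) (hr : 2 * r ≤ d) (ε : ℝ) (hε : 0 < ε) :
    ∃ η : ℝ, 0 < η ∧ ∃ H₀ : ℕ, ∀ H : ℕ, H₀ ≤ H →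
    (((box d H).filter (fun f => ∃ l X : ℕ, 1 ≤ l ∧ (X : ℝ) ≤ Real.log H ^ A ∧
      (complexity f l X : ℝ) < min (X : ℝ) ((l : ℝ) ^ r) / Real.log H ^ ε)).card : ℝ) ≤
      (box d H).card / Real.log H ^ η := by
  obtain ⟨η, hη, H0, h0⟩ := Pool.Agent.TP975.LR.complexity Pool.Agent.TP975.LR.lamI Pool.Agent.TP975.LR.winB_lamI
    (fun v hv => by
      unfold Pool.Agent.TP975.LR.lamI
      rw [if_neg hv]
      exact neg_one_pow_eq_or ℝ _) (by
      unfold Pool.Agent.TP975.LR.lamI
      rw [if_pos rfl]) d A r hr1 hr ε hε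
  exact ⟨η, hη, H0, fun H hH => h0 H hH⟩

end Pool.Agent.Results.MP_4fffd4_nt.WordsAlongPolynomials
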